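import Pool.Agent.EDG.StmtsC

/-!
# EDG row FAC (factorisation of the cofactor)
-/

set_option autoImplicit false

open Polynomial

namespace Pool.Agent.EDG.H10

open Pool.Agent.EDG.C (phi)

theorem fac (hE : C.EviStmt) : C.FacStmt := by
  intro n R Cf hn hR hRC hres
  obtain ⟨-, -, hphi, hdvd⟩ := hE
  have hphin := (hphi n hn).1
  have hCf : Cf.Monic := hR.of_mul_monic_left (hRC ▸ hphin)
  have hP : (∏ p ∈ n.primeFactors, phi (n / p)).Monic := by
    refine monic_prod_of_monic _ _ (fun p hp => (hphi _ ?_).1)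
    exact Nat.div_pos (Nat.le_of_dvd hn (Nat.dvd_of_mem_primeFactors hp))
      (Nat.prime_of_mem_primeFactors hp).pos
  -- the monic gcd
  obtain ⟨L, hLm, hLC, hLP, hLd⟩ : ∃ L : ℂ[X][X], L.Monic ∧ L ∣ Cf ∧
      L ∣ ∏ p ∈ n.primeFactors, phi (n / p) ∧
      ∀ d, d ∣ Cf → d ∣ ∏ p ∈ n.primeFactors, phi (n / p) → d ∣ L := by
    let _ : GCDMonoid ℂ[X][X] := UniqueFactorizationMonoid.toGCDMonoid _
    obtain ⟨h, hh⟩ := gcd_dvd_left Cf (∏ p ∈ n.primeFactors, phi (n / p))
    have hlc : (gcd Cf (∏ p ∈ n.primeFactors, phi (n / p))).leadingCoeff * h.leadingCoeff = 1 := by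
      rw [← leadingCoeff_mul, ← hh]; exact hCf
    have hu : IsUnit (C h.leadingCoeff) := (IsUnit.of_mul_eq_one_right _ hlc).map C
    refine ⟨C h.leadingCoeff * gcd Cf (∏ p ∈ n.primeFactors, phi (n / p)), ?_, ?_, ?_, ?_⟩
    · exact monic_C_mul_of_mul_leadingCoeff_eq_one (by rw [mul_comm]; exact hlc)
    · rw [hu.mul_left_dvd]; exact gcd_dvd_left _ _
    · rw [hu.mul_left_dvd]; exact gcd_dvd_right _ _
    · intro d h1 h2
      exact dvd_mul_of_dvd_right (dvd_gcd h1 h2) _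
  obtain ⟨Q, hQ⟩ := hLC
  have hQm : Q.Monic := hLm.of_mul_monic_left (hQ ▸ hCf)
  refine ⟨Q, L, by rw [hQ, mul_comm], hQm, hLm, hLP, ?_⟩
  intro k hk hkn
  -- a prime `p` with `k ∣ n / p`
  obtain ⟨m, hm⟩ := hk
  have hk0 : 0 < k := Nat.pos_of_ne_zero (by rintro rfl; simp at hm; omega)
  have hm1 : m ≠ 1 := by rintro rfl; omega
  have hp := Nat.minFac_prime hm1
  obtain ⟨m', hm'⟩ := Nat.minFac_dvd m
  have hpn : m.minFac ∈ n.primeFactors := by
    refine Nat.mem_primeFactors.mpr ⟨hp, ?_, hn.ne'⟩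
    exact (Nat.minFac_dvd m).trans ⟨k, by rw [hm, mul_comm]⟩
  have hkp : k ∣ n / m.minFac := by
    refine ⟨m', Nat.div_eq_of_eq_mul_left hp.pos ?_⟩
    calc n = k * m := hm
      _ = k * (m.minFac * m') := by rw [← hm']
      _ = k * m' * m.minFac := by ring
  have hd1 : phi k ∣ phi (n / m.minFac) := hdvd _ _ hkp
  have hd2 : phi k ∣ ∏ p ∈ n.primeFactors, phi (n / p) :=
    hd1.trans (Finset.dvd_prod_of_mem (fun p => phi (n / p)) hpn)
  refine hLd _ ?_ hd2
  have hd3 : phi k ∣ R * Cf := by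
    rw [hRC]; exact hdvd _ _ ⟨m, hm⟩
  have hrel : IsRelPrime (phi k) R := by
    intro d h1 h2
    by_cases hR0 : R.natDegree = 0
    · rw [eq_one_of_monic_natDegree_zero hR hR0] at h2
      exact isUnit_of_dvd_one h2
    obtain ⟨a, b, -, -, hab⟩ := exists_mul_add_mul_eq_C_resultant R (phi (n / m.minFac))
      le_rfl le_rfl (Or.inl hR0)
    have h3 : d ∣ Polynomial.C (resultant R (phi (n / m.minFac))) := by
      rw [← hab]
      exact dvd_add (h2.mul_right _) ((h1.trans hd1).mul_right _)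
    have hne : Polynomial.C (resultant R (phi (n / m.minFac))) ≠ 0 := by
      rw [Ne, C_eq_zero]; exact hres _ hpn
    have h4 : d.natDegree = 0 := by
      have := natDegree_le_of_dvd h3 hne
      rw [natDegree_C] at this
      omega
    obtain ⟨a', ha'⟩ := h2
    have h5 : d.leadingCoeff * a'.leadingCoeff = 1 := by
      rw [← leadingCoeff_mul, ← ha']; exact hR
    rw [eq_C_of_natDegree_eq_zero h4]
    refine IsUnit.map C ?_
    have : d.coeff 0 = d.leadingCoeff := by rw [leadingCoeff, h4]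
    rw [this]
    exact IsUnit.of_mul_eq_one _ h5
  exact hrel.dvd_of_dvd_mul_left hd3

end Pool.Agent.EDG.H10
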